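import Pool.Agent.U441.MS.Mh

/-!
# MP_353e3b_nt: primes `⌊x β ^ n⌋ + h` for almost every and for generic `x`

The problem asks for primes `⌊β ^ n⌋`, `β = 3 / 2` and `β = 4 / 3`. These are the numbers
`⌊x β ^ n⌋ + h` with `x = 1` and `h = 0`. Here `x` is a real number, and the theorem holds for almost
every `x > 0` and for all `x > 0` outside a meagre set, for all bases `β` of a countable set, all `h`
and all classes of exponents.
-/

set_option autoImplicit false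

namespace Pool.Agent.Results.MP_353e3b_nt.MetricPowers

open MeasureTheory Filter Topology

/-- `⌊x β ^ m⌋ + h` is a prime number -/
def PrimeAt (β x : ℝ) (h : ℤ) (m : ℕ) : Prop := (⌊x * β ^ m⌋ + h).toNat.Prime

/-- Sequences of indices: for large `n`, `i_{n+1} ≥ i_n + c log n` with some `c > 0`, and
`i_n ≤ n ^ k` with some `k`. -/
def Thin (i : ℕ → ℕ) : Prop :=
  (∃ c : ℝ, 0 < c ∧ ∀ᶠ n : ℕ in atTop, (i n : ℝ) + c * Real.log n ≤ i (n + 1)) ∧
    ∃ k : ℕ, ∀ᶠ n : ℕ in atTop, (i n : ℝ) ≤ (n : ℝ) ^ k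

/-- the number of `n ≤ M` for which `⌊x β ^ (i_n)⌋ + h` is prime -/
noncomputable def number (β : ℝ) (i : ℕ → ℕ) (x : ℝ) (h : ℤ) (M : ℕ) : ℕ :=
  {n : ℕ | n ≤ M ∧ PrimeAt β x h (i n)}.ncard

/-- the expected number: the sum of `1 / (i_n log β)` over the `n ≤ M` (a term with `i_n = 0` is
zero) -/
noncomputable def expected (β : ℝ) (i : ℕ → ℕ) (M : ℕ) : ℝ :=
  ∑ n ∈ Finset.range (M + 1), 1 / ((i n : ℝ) * Real.log β)

/-! ### the metric law -/

lemma pow_exp {β : ℝ} (hβ : 1 < β) (k : ℕ) : β ^ k = Real.exp (k * Real.log β) := by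
  rw [Real.exp_nat_mul, Real.exp_log (by linarith)]

lemma grow {β : ℝ} (hβ : 1 < β) {i : ℕ → ℕ} (hi : Thin i) :
    ∃ c : ℝ, 0 < c ∧ ∀ᶠ n : ℕ in atTop, (n : ℝ) ^ c * β ^ (i n) ≤ β ^ (i (n + 1)) := by
  obtain ⟨⟨c, hc, h1⟩, -⟩ := hi
  have hl : 0 < Real.log β := Real.log_pos hβ
  refine ⟨c * Real.log β, by positivity, ?_⟩
  filter_upwards [h1, eventually_ge_atTop 1] with n hn hn1
  have hn0 : (0 : ℝ) < n := by exact_mod_cast hn1
  rw [pow_exp hβ, pow_exp hβ, Real.rpow_def_of_pos hn0, ← Real.exp_add]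
  apply Real.exp_le_exp.2
  nlinarith [mul_le_mul_of_nonneg_right hn hl.le]

lemma poly {β : ℝ} (hβ : 1 < β) {i : ℕ → ℕ} (hi : Thin i) :
    ∃ k : ℕ, ∀ᶠ n : ℕ in atTop, Real.log (β ^ (i n)) ≤ (n : ℝ) ^ k := by
  obtain ⟨-, k, h1⟩ := hi
  have hl : 0 < Real.log β := Real.log_pos hβ
  refine ⟨k + 1, ?_⟩
  filter_upwards [h1, tendsto_natCast_atTop_atTop.eventually_ge_atTop (Real.log β)] with n hn hn1
  rw [Real.log_pow, pow_succ]
  exact mul_le_mul hn hn1 hl.le (by positivity)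

lemma one_le {β : ℝ} (hβ : 1 < β) (i : ℕ → ℕ) (n : ℕ) : 1 ≤ β ^ (i n) := one_le_pow₀ hβ.le

open Classical in
lemma T_eq (β : ℝ) (i : ℕ → ℕ) (x : ℝ) (h : ℤ) (M : ℕ) :
    Pool.Agent.U441.MS.T (fun n => β ^ (i n)) h (Pool.Agent.U441.MS.FS Set.univ M) x =
      number β i x h M := by
  have e : {n : ℕ | n ≤ M ∧ PrimeAt β x h (i n)} =
      (((Pool.Agent.U441.MS.FS Set.univ M).filter (fun n => PrimeAt β x h (i n)) : Finset ℕ) :
        Set ℕ) := by
    ext n
    simp only [Pool.Agent.U441.MS.FS, Set.mem_setOf_eq, Finset.coe_filter, Finset.mem_filter,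
      Finset.mem_range, Nat.lt_succ_iff, Set.mem_univ, and_true]
  unfold number
  rw [e, Set.ncard_coe_finset, Finset.card_eq_sum_ones, Finset.sum_filter]
  push_cast
  unfold Pool.Agent.U441.MS.T
  refine Finset.sum_congr rfl fun n _ => ?_
  unfold Pool.Agent.U441.MS.ind Set.indicator PrimeAt
  simp only [Set.mem_setOf_eq]
  congr

lemma W_eq (β : ℝ) (i : ℕ → ℕ) (M : ℕ) :
    Pool.Agent.U441.MS.W (fun n => β ^ (i n)) Set.univ M = expected β i M := by
  classical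
  unfold Pool.Agent.U441.MS.W Pool.Agent.U441.MS.FS expected
  rw [Finset.sum_filter]
  refine Finset.sum_congr rfl fun n _ => ?_
  simp [Real.log_pow]

lemma number_mono (β : ℝ) (i : ℕ → ℕ) (x : ℝ) (h : ℤ)
    (hf : {n : ℕ | PrimeAt β x h (i n)}.Finite) (M : ℕ) :
    number β i x h M ≤ {n : ℕ | PrimeAt β x h (i n)}.ncard :=
  Set.ncard_le_ncard (fun _ hn => hn.2) hf

lemma summable_iff {β : ℝ} (hβ : 1 < β) (i : ℕ → ℕ) :
    (Summable fun n => 1 / ((i n : ℝ) * Real.log β)) ↔ Summable fun n => 1 / (i n : ℝ) := by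
  have hl : Real.log β ≠ 0 := (Real.log_pos hβ).ne'
  have e : (fun n => 1 / ((i n : ℝ) * Real.log β)) =
      fun n => (1 / (i n : ℝ)) * (1 / Real.log β) := by
    ext n
    rw [one_div_mul_one_div]
  rw [e, summable_mul_right_iff (by simpa using hl)]

lemma div_case {β : ℝ} (hβ : 1 < β) {i : ℕ → ℕ} (hi : Thin i)
    (hS : ¬ Summable fun n => 1 / (i n : ℝ)) :
    ∀ᵐ x : ℝ, 0 < x → ∀ h : ℤ, {n : ℕ | PrimeAt β x h (i n)}.Infinite ∧ ∀ ε : ℝ, 0 < ε →
      (∃ᶠ M : ℕ in atTop, (1 - ε) * expected β i M < number β i x h M) ∧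
      (∃ᶠ M : ℕ in atTop, (number β i x h M : ℝ) < (1 + ε) * expected β i M) := by
  obtain ⟨c, hc, h2⟩ := grow hβ hi
  obtain ⟨k, h3⟩ := poly hβ hi
  have hl : 0 < Real.log β := Real.log_pos hβ
  have hnn : ∀ n, 0 ≤ 1 / ((i n : ℝ) * Real.log β) := fun n => by positivity
  have hE0 : ∀ M, 0 ≤ expected β i M := fun M => Finset.sum_nonneg fun n _ => hnn n
  have hE : Tendsto (expected β i) atTop atTop :=
    (tendsto_add_atTop_iff_nat 1).2
      ((not_summable_iff_tendsto_nat_atTop_of_nonneg hnn).1 (by rwa [summable_iff hβ]))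
  have hW : Tendsto (Pool.Agent.U441.MS.W (fun n => β ^ (i n)) Set.univ) atTop atTop :=
    hE.congr fun M => (W_eq β i M).symm
  have h4 : ∀ᵐ x : ℝ, ∀ h : ℤ, ∀ j : ℕ, 0 < x →
      (∃ᶠ M : ℕ in atTop, (1 - 1 / ((j : ℝ) + 1)) * expected β i M < number β i x h M) ∧
      (∃ᶠ M : ℕ in atTop, (number β i x h M : ℝ) < (1 + 1 / ((j : ℝ) + 1)) * expected β i M) := by
    refine ae_all_iff.2 fun h => ae_all_iff.2 fun j => ?_
    have hj : (1 : ℝ) / ((j : ℝ) + 1) ≤ 1 := by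
      rw [div_le_one (by positivity)]
      linarith [Nat.cast_nonneg (α := ℝ) j]
    have h5 := Pool.Agent.U441.MS.ae_one (one_le hβ i) hc h2 h3 Set.univ hW h
      (ε := 1 / ((j : ℝ) + 1)) (by positivity) hj
    filter_upwards [h5] with x hx hx0
    simpa only [T_eq, W_eq] using hx hx0
  filter_upwards [h4] with x hx hx0 h
  refine ⟨fun hfin => ?_, fun ε hε => ?_⟩
  · have h6 := (hx h 1 hx0).1
    have h7 : Tendsto (fun M => (1 - 1 / (((1 : ℕ) : ℝ) + 1)) * expected β i M) atTop atTop :=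
      hE.const_mul_atTop (by norm_num)
    have h8 := h7.eventually_gt_atTop (({n : ℕ | PrimeAt β x h (i n)}.ncard : ℕ) : ℝ)
    obtain ⟨M, hM1, hM2⟩ := (h6.and_eventually h8).exists
    have h9 : (number β i x h M : ℝ) ≤ (({n : ℕ | PrimeAt β x h (i n)}.ncard : ℕ) : ℝ) := by
      exact_mod_cast number_mono β i x h hfin M
    linarith
  · obtain ⟨j, hj⟩ := exists_nat_one_div_lt hε
    obtain ⟨h6, h7⟩ := hx h j hx0
    refine ⟨h6.mono fun M hM => lt_of_le_of_lt ?_ hM, h7.mono fun M hM => lt_of_lt_of_le hM ?_⟩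
    · exact mul_le_mul_of_nonneg_right (by linarith) (hE0 M)
    · exact mul_le_mul_of_nonneg_right (by linarith) (hE0 M)

/-! ### classes of indices -/

/-- indices in the class of `a` modulo `L` with gaps about `L log n` -/
def idx (a L n : ℕ) : ℕ := a + L * (n * (Nat.log 2 n + 1))

lemma log_le (n : ℕ) : Real.log n ≤ Nat.log 2 n + 1 := by
  rcases Nat.eq_zero_or_pos n with h | h
  · subst h
    simp
  · have h1 : n < 2 ^ (Nat.log 2 n + 1) := Nat.lt_pow_succ_log_self (by norm_num) n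
    have h2 : (n : ℝ) ≤ 2 ^ (Nat.log 2 n + 1) := by exact_mod_cast h1.le
    have h3 : Real.log n ≤ Real.log (2 ^ (Nat.log 2 n + 1)) :=
      Real.log_le_log (by exact_mod_cast h) h2
    rw [Real.log_pow] at h3
    push_cast at h3
    have h4 : Real.log 2 ≤ 1 := by linarith [Real.log_two_lt_d9]
    nlinarith [h3, h4, Nat.cast_nonneg (α := ℝ) (Nat.log 2 n)]

lemma idx_step {L : ℕ} (hL : 0 < L) (a n : ℕ) :
    idx a L n + (Nat.log 2 n + 1) ≤ idx a L (n + 1) := by
  unfold idx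
  have h1 : Nat.log 2 n ≤ Nat.log 2 (n + 1) := Nat.log_mono_right (Nat.le_succ n)
  have h2 : n * (Nat.log 2 n + 1) + (Nat.log 2 n + 1) ≤ (n + 1) * (Nat.log 2 (n + 1) + 1) := by
    nlinarith
  have h3 : L * (n * (Nat.log 2 n + 1) + (Nat.log 2 n + 1)) ≤
      L * ((n + 1) * (Nat.log 2 (n + 1) + 1)) := Nat.mul_le_mul_left _ h2
  have h4 : Nat.log 2 n + 1 ≤ L * (Nat.log 2 n + 1) := Nat.le_mul_of_pos_left _ hL
  rw [mul_add] at h3
  omega

lemma idx_strict {L : ℕ} (hL : 0 < L) (a : ℕ) : StrictMono (idx a L) :=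
  strictMono_nat_of_lt_succ fun n => by
    have := idx_step hL a n
    omega

lemma thin_idx {L : ℕ} (hL : 0 < L) (a : ℕ) : Thin (idx a L) := by
  refine ⟨⟨1, one_pos, Eventually.of_forall fun n => ?_⟩, 4, ?_⟩
  · have h1 := idx_step hL a n
    have h2 : ((idx a L n + (Nat.log 2 n + 1) : ℕ) : ℝ) ≤ (idx a L (n + 1) : ℕ) := by
      exact_mod_cast h1
    push_cast at h2
    have h3 := log_le n
    linarith
  · filter_upwards [eventually_ge_atTop (a + L + 2)] with n hn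
    have h1 : Nat.log 2 n ≤ n := Nat.log_le_self 2 n
    have h2 : idx a L n ≤ n ^ 4 := by
      unfold idx
      have h3 : L * (n * (Nat.log 2 n + 1)) ≤ n * (n * (n + 1)) :=
        Nat.mul_le_mul (by omega) (Nat.mul_le_mul_left _ (by omega))
      have h4 : 2 ≤ n := by omega
      have h5 : n * (n * (n + 1)) + n ≤ n ^ 4 := by
        have e : n ^ 4 = n ^ 3 * n := by ring
        have h6 : n ^ 3 * 2 ≤ n ^ 3 * n := Nat.mul_le_mul_left _ h4
        have h7 : n ^ 2 * 2 ≤ n ^ 2 * n := Nat.mul_le_mul_left _ h4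
        have h8 : n * 2 ≤ n * n := Nat.mul_le_mul_left _ h4
        nlinarith
      omega
    exact_mod_cast h2

lemma not_summable_idx {L : ℕ} (hL : 0 < L) (a : ℕ) :
    ¬ Summable fun n => 1 / (idx a L n : ℝ) := by
  intro h
  have hmono : ∀ ⦃m n : ℕ⦄, 0 < m → m ≤ n → 1 / (idx a L n : ℝ) ≤ 1 / (idx a L m : ℝ) := by
    intro m n hm hmn
    have h1 : 0 < idx a L m := by
      unfold idx
      positivity
    have h2 : idx a L m ≤ idx a L n := (idx_strict hL a).monotone hmn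
    exact one_div_le_one_div_of_le (by exact_mod_cast h1) (by exact_mod_cast h2)
  have h1 := (summable_condensed_iff_of_nonneg (fun n => by positivity) hmono).2 h
  have h2 : ∀ k : ℕ, 1 / (((a + L : ℕ) : ℝ)) * (1 / ((k + 1 : ℕ) : ℝ)) ≤
      (2 : ℝ) ^ k * (1 / (idx a L (2 ^ k) : ℝ)) := by
    intro k
    have h3 : idx a L (2 ^ k) ≤ 2 ^ k * ((a + L) * (k + 1)) := by
      unfold idx
      rw [Nat.log_pow (by norm_num)]
      have h4 : 1 ≤ 2 ^ k := Nat.one_le_two_pow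
      have h5 : a ≤ 2 ^ k * (a * (k + 1)) := by
        calc a = 1 * (a * 1) := by ring
          _ ≤ 2 ^ k * (a * (k + 1)) := Nat.mul_le_mul h4 (Nat.mul_le_mul_left _ (by omega))
      nlinarith
    have h6 : 0 < idx a L (2 ^ k) := by
      unfold idx
      positivity
    have h7 : ((idx a L (2 ^ k) : ℕ) : ℝ) ≤ 2 ^ k * (((a + L : ℕ) : ℝ) * ((k + 1 : ℕ) : ℝ)) := by
      exact_mod_cast h3
    have h8 : (0 : ℝ) < (idx a L (2 ^ k) : ℕ) := by exact_mod_cast h6
    have h9 : (0 : ℝ) < ((a + L : ℕ) : ℝ) := by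
      have : 0 < a + L := by omega
      exact_mod_cast this
    have h10 : (0 : ℝ) < ((k + 1 : ℕ) : ℝ) := by exact_mod_cast Nat.succ_pos k
    rw [one_div_mul_one_div, mul_one_div, div_le_div_iff₀ (by positivity) h8]
    linarith
  have h3 : Summable fun k : ℕ => 1 / (((a + L : ℕ) : ℝ)) * (1 / ((k + 1 : ℕ) : ℝ)) :=
    Summable.of_nonneg_of_le (fun k => by positivity) h2 h1
  have h9 : (1 / (((a + L : ℕ) : ℝ))) ≠ 0 := by
    have : 0 < a + L := by omega
    have h9 : (0 : ℝ) < ((a + L : ℕ) : ℝ) := by exact_mod_cast this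
    positivity
  rw [summable_mul_left_iff h9] at h3
  exact Real.not_summable_one_div_natCast
    ((summable_nat_add_iff (f := fun n : ℕ => 1 / (n : ℝ)) 1).1 h3)

lemma class_law {β : ℝ} (hβ : 1 < β) {L : ℕ} (hL : 0 < L) (a : ℕ) :
    ∀ᵐ x : ℝ, 0 < x → ∀ h : ℤ, {m : ℕ | m ≡ a [MOD L] ∧ PrimeAt β x h m}.Infinite := by
  filter_upwards [div_case hβ (thin_idx hL a) (not_summable_idx hL a)] with x hx hx0 h
  refine (((hx hx0 h).1).image (idx_strict hL a).injective.injOn).mono ?_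
  rintro m ⟨n, hn, rfl⟩
  refine ⟨?_, hn⟩
  unfold idx Nat.ModEq
  exact Nat.add_mul_mod_self_left _ _ _

lemma class_generic {β : ℝ} (hβ : 1 < β) {L : ℕ} (hL : 0 < L) (a : ℕ) (h : ℤ) :
    ∀ᶠ x : ℝ in residual ℝ, 0 < x → {m : ℕ | m ≡ a [MOD L] ∧ PrimeAt β x h m}.Infinite := by
  have key : ∀ M : ℕ, ∀ᶠ x : ℝ in residual ℝ, 0 < x →
      ∃ m : ℕ, M ≤ m ∧ m ≡ a [MOD L] ∧ PrimeAt β x h m := by
    intro M
    set O : Set ℝ := ⋃ (m : ℕ) (_ : M ≤ m ∧ m ≡ a [MOD L]) (k : ℤ) (_ : (k + h).toNat.Prime),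
      Set.Ioo ((k : ℝ) / β ^ m) (((k : ℝ) + 1) / β ^ m) with hO
    have hOo : IsOpen O := isOpen_iUnion fun m => isOpen_iUnion fun _ => isOpen_iUnion fun k =>
      isOpen_iUnion fun _ => isOpen_Ioo
    have hU : IsOpen (O ∪ Set.Iio 0) := hOo.union isOpen_Iio
    have hd : Dense (O ∪ Set.Iio 0) := by
      rw [dense_iff_inter_open]
      rintro U hUo ⟨y, hy⟩
      obtain ⟨r, hr, hball⟩ := Metric.isOpen_iff.1 hUo y hy
      rcases lt_or_ge y 0 with hy0 | hy0
      · exact ⟨y, hy, Or.inr hy0⟩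
      · have h1 := ae_iff.1 (class_law hβ hL a)
        obtain ⟨x, hx1, hx2⟩ : ∃ x ∈ Set.Ioo y (y + r), (0 < x → ∀ h : ℤ,
            {m : ℕ | m ≡ a [MOD L] ∧ PrimeAt β x h m}.Infinite) := by
          by_contra hcon
          have h2 : ∀ x ∈ Set.Ioo y (y + r), ¬ (0 < x → ∀ h : ℤ,
              {m : ℕ | m ≡ a [MOD L] ∧ PrimeAt β x h m}.Infinite) :=
            fun x hx hP => hcon ⟨x, hx, hP⟩
          have h3 : volume (Set.Ioo y (y + r)) = 0 := measure_mono_null h2 h1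
          rw [Real.volume_Ioo, ENNReal.ofReal_eq_zero] at h3
          linarith
        have hx0 : 0 < x := hy0.trans_lt hx1.1
        obtain ⟨m, hm1, hm2⟩ := (hx2 hx0 h).exists_gt M
        have hbm : 0 < β ^ m := by positivity
        have hxk : x < ((⌊x * β ^ m⌋ : ℝ) + 1) / β ^ m := by
          rw [lt_div_iff₀ hbm]
          exact Int.lt_floor_add_one _
        obtain ⟨z, hz1, hz2⟩ := exists_between (lt_min hx1.2 hxk)
        have hz3 := lt_of_lt_of_le hz2 (min_le_left _ _)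
        have hz4 := lt_of_lt_of_le hz2 (min_le_right _ _)
        refine ⟨z, hball ?_, Or.inl ?_⟩
        · rw [Metric.mem_ball, Real.dist_eq, abs_lt]
          have := hx1.1
          constructor <;> linarith
        · simp only [hO, Set.mem_iUnion]
          refine ⟨m, ⟨hm2.le, hm1.1⟩, ⌊x * β ^ m⌋, hm1.2, ?_, hz4⟩
          rw [div_lt_iff₀ hbm]
          calc ((⌊x * β ^ m⌋ : ℤ) : ℝ) ≤ x * β ^ m := Int.floor_le _
            _ < z * β ^ m := mul_lt_mul_of_pos_right hz1 hbm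
    filter_upwards [residual_of_dense_open hU hd] with x hx hx0
    rcases hx with hx | hx
    · simp only [hO, Set.mem_iUnion] at hx
      obtain ⟨m, ⟨hm1, hm2⟩, k, hk, hx1, hx2⟩ := hx
      have hbm : 0 < β ^ m := by positivity
      rw [div_lt_iff₀ hbm] at hx1
      rw [lt_div_iff₀ hbm] at hx2
      refine ⟨m, hm1, hm2, ?_⟩
      unfold PrimeAt
      have h5 : ⌊x * β ^ m⌋ = k := by
        rw [Int.floor_eq_iff]
        exact ⟨hx1.le, hx2⟩
      rw [h5]
      exact hk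
    · exact absurd hx (not_lt.2 hx0.le)
  have h2 : ∀ᶠ x : ℝ in residual ℝ, ∀ M : ℕ, 0 < x →
      ∃ m : ℕ, M ≤ m ∧ m ≡ a [MOD L] ∧ PrimeAt β x h m := eventually_countable_forall.2 key
  filter_upwards [h2] with x hx hx0
  refine Set.infinite_of_forall_exists_gt fun M => ?_
  obtain ⟨m, h3, h4, h5⟩ := hx (M + 1) hx0
  exact ⟨m, ⟨h4, h5⟩, by omega⟩

/-- Let `B` be a countable set of real numbers `β > 1`, for example the set of all rational numbers
`> 1`, which contains `3 / 2` and `4 / 3`. For almost every `x > 0`, and for all `x > 0` outside a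
meagre set: for all `β ∈ B`, all integers `h` and all classes `a` modulo `L`, `⌊x β ^ n⌋ + h` is
prime for infinitely many `n` in the class of `a` modulo `L`. -/
theorem result (B : Set ℝ) (hB : B.Countable) (hB1 : ∀ β ∈ B, 1 < β) :
    (∀ᵐ x : ℝ, 0 < x → ∀ β ∈ B, ∀ (h : ℤ) (a L : ℕ), 0 < L →
      {n : ℕ | n ≡ a [MOD L] ∧ (⌊x * β ^ n⌋ + h).toNat.Prime}.Infinite) ∧
    (∀ᶠ x : ℝ in residual ℝ, 0 < x → ∀ β ∈ B, ∀ (h : ℤ) (a L : ℕ), 0 < L →
      {n : ℕ | n ≡ a [MOD L] ∧ (⌊x * β ^ n⌋ + h).toNat.Prime}.Infinite) := by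
  refine ⟨?_, ?_⟩
  · have h1 : ∀ᵐ x : ℝ, ∀ β ∈ B, ∀ a L : ℕ, 0 < L → 0 < x → ∀ h : ℤ,
        {m : ℕ | m ≡ a [MOD L] ∧ PrimeAt β x h m}.Infinite := by
      refine (ae_ball_iff hB).2 fun β hβ => ae_all_iff.2 fun a => ae_all_iff.2 fun L => ?_
      rcases Nat.eq_zero_or_pos L with h | h
      · exact Eventually.of_forall fun x hx => absurd hx (by omega)
      · filter_upwards [class_law (hB1 β hβ) h a] with x hx _ using hx
    filter_upwards [h1] with x hx hx0 β hβ h a L hL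
    exact hx β hβ a L hL hx0 h
  · have h1 : ∀ᶠ x : ℝ in residual ℝ, ∀ β ∈ B, ∀ (a L : ℕ) (h : ℤ), 0 < L → 0 < x →
        {m : ℕ | m ≡ a [MOD L] ∧ PrimeAt β x h m}.Infinite := by
      refine (eventually_countable_ball hB).2 fun β hβ => eventually_countable_forall.2 fun a =>
        eventually_countable_forall.2 fun L => eventually_countable_forall.2 fun h => ?_
      rcases Nat.eq_zero_or_pos L with hL | hL
      · exact Eventually.of_forall fun x hx => absurd hx (by omega)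
      · filter_upwards [class_generic (hB1 β hβ) hL a h] with x hx _ using hx
    filter_upwards [h1] with x hx hx0 β hβ h a L hL
    exact hx β hβ a L h hL hx0

end Pool.Agent.Results.MP_353e3b_nt.MetricPowers
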